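import Pool.Agent.helper2.B2.DX6
import Pool.Agent.helper18.B2.DX5
import Pool.Agent.helper77.B2.DX7

/-! # MP_b2b189_gt, b2:DX8: exclusion of scalar block points -/

set_option autoImplicit false

namespace Pool.Agent.helper68.B2

open scoped ContDiff Topology Matrix
open Matrix Set Filter
open Pool.Agent.helper25.B2 (Sol Block)

variable {S : Geo}

namespace Roots
variable (R : Roots S)

/-- the rescaled field of `X` -/
noncomputable def DX8_Y (x : E4) : V3 := (R.far x - R.m x) • R.X x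

theorem DX8_Y_diff {x : E4} (hx : x ∈ R.N) : ContDiffAt ℝ ∞ R.DX8_Y x := by
  obtain ⟨h1, h2, -, -, h3, -⟩ := R.smN hx
  show ContDiffAt ℝ ∞ (fun x => (R.far x - R.m x) • R.X x) x
  exact (h1.sub h2).smul h3

theorem DX8_Z_smooth {x : E4} (hx : x ∈ R.N) (k : ℝ) :
    ContDiffAt ℝ ∞ (fun p => k • fld (R.DX8_Y p) p) x := by
  have hk : ContDiffAt ℝ ∞ (fun _ : E4 => k) x := contDiffAt_const
  refine hk.smul ?_
  unfold fld
  refine ContDiffAt.sum fun i _ => ?_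
  exact ((contDiffAt_pi.1 (R.DX8_Y_diff hx)) i).smul ((J i).contDiff.contDiffAt)

theorem DX8_bracket (hNC : S.NC) {W : Set E4} {T : E4 → V3} (hT : IsRoot S W R.far 1 T)
    (hW : W ⊆ R.N) {x : E4} (hx : x ∈ W) (h2 : x ∈ R.S2) (k : ℝ) :
    fderiv ℝ (fun p => fld (T p) p) x (k • fld (R.DX8_Y x) x) =
      fderiv ℝ (fun p => k • fld (R.DX8_Y p) p) x (fld (T x) x) := by
  have hx0 : x ≠ 0 := DXa_ne hT hx
  have hTd : DifferentiableAt ℝ T x :=
    (hT.smT.contDiffAt (hT.cone.isOpen.mem_nhds hx)).differentiableAt (by simp)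
  have hYd : DifferentiableAt ℝ R.DX8_Y x := (R.DX8_Y_diff (hW hx)).differentiableAt (by simp)
  have h1 := Pool.Agent.helper68.B2.T.bracket_fld S hx0 hTd hYd
  have h3 : S.nab R.DX8_Y (T x) x = S.nab T (R.DX8_Y x) x := R.DX7 hNC hT hW hx h2
  rw [h3, sub_self] at h1
  have h4 : fld (0 : V3) x = 0 := by simp [fld]
  rw [h4, sub_eq_zero] at h1
  have h5 : DifferentiableAt ℝ (fun p => fld (R.DX8_Y p) p) x := by
    have := (R.DX8_Z_smooth (hW hx) 1).differentiableAt (by simp)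
    simpa only [one_smul] using this
  rw [fderiv_fun_const_smul h5, map_smul, ← h1]
  rfl

/-- one step of the transport -/
theorem DX8_step (hNC : S.NC) {c b h₀ : ℝ} (hcb : b ≠ c) {y : ℝ → E4} (hy : Sol R.Xg R.N y univ)
    (hG : ∀ t, y t ∈ R.Gs c b h₀) {r δ δ₁ β w t₀ : ℝ} (hβ : 0 < β) (hβδ : β < δ) (hδ₁ : 0 < δ₁)
    (hu : ∀ w, R.F3.Rt (y t₀) w → ∃ (W : Set E4) (T : E4 → V3), W ⊆ R.N ∧ IsRoot S W R.far 1 T ∧
      y t₀ ∈ W ∧ fld (T (y t₀)) (y t₀) = w ∧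
        ∀ x' : E4, ‖x' - y t₀‖ < r → ∃ ζ : ℝ → E4, ζ 0 = x' ∧
          Sol (fun p => fld (T p) p) W ζ (Ioo (-δ) δ))
    (hn : ∀ t, |t - t₀| < δ₁ → ‖y t - y t₀‖ < r)
    (hQ : ∃ γ v : ℝ → E4, R.F3.IsCurve γ v (Icc 0 β) ∧ γ 0 = y t₀ ∧ γ β = y (t₀ + w)) :
    ∀ t, |t - t₀| < δ₁ → ∃ γ v : ℝ → E4, R.F3.IsCurve γ v (Icc 0 β) ∧ γ 0 = y t ∧
      γ β = y (t + w) := by
  obtain ⟨γ, v, hγ, hγ0, hγβ⟩ := hQ
  have h0β : (0 : ℝ) ∈ Icc 0 β := ⟨le_rfl, hβ.le⟩
  have hββ : β ∈ Icc 0 β := ⟨hβ.le, le_rfl⟩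
  obtain ⟨W, T, hW, hT, hyW, hTv, hex⟩ := hu (v 0) (by rw [← hγ0]; exact (hγ.2 0 h0β).2.1)
  have hex' : ∀ t, ∃ ζ : ℝ → E4, |t - t₀| < δ₁ → (ζ 0 = y t ∧
      Sol (fun p => fld (T p) p) W ζ (Ioo (-δ) δ)) := by
    intro t
    by_cases ht : |t - t₀| < δ₁
    · obtain ⟨ζ, h1, h2⟩ := hex (y t) (hn t ht)
      exact ⟨ζ, fun _ => ⟨h1, h2⟩⟩
    · exact ⟨fun _ => 0, fun h => absurd h ht⟩
  choose ζ hζ using hex'
  have hsub : Icc 0 β ⊆ Ioo (-δ) δ := fun s hs => ⟨by linarith [hs.1], by linarith [hs.2]⟩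
  have hcur : ∀ t, |t - t₀| < δ₁ →
      R.F3.IsCurve (ζ t) (fun s => fld (T (ζ t s)) (ζ t s)) (Icc 0 β) := fun t ht =>
    W5_mono (R.DXa_curve hT hW (hζ t ht).2) hsub
  have hS2 : ∀ t, |t - t₀| < δ₁ → ∀ s ∈ Icc 0 β, ζ t s ∈ R.S2 := by
    intro t ht s hs
    exact (R.DX7_curve hNC (hcur t ht) le_rfl hβ.le (by rw [(hζ t ht).1]; exact (hG t).1) s hs).1
  have hZy : ∀ t, (b - c)⁻¹ • fld (R.DX8_Y (y t)) (y t) = R.Xg (y t) := by
    intro t
    have hg := hG t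
    have hm := R.m_S2 hg.1
    unfold DX8_Y
    rw [hg.2.2.1, hm, hg.2.1, Pool.Agent.helper68.B2.T.T1a_fld_smul, smul_smul,
      inv_mul_cancel₀ (sub_ne_zero.2 hcb), one_smul]
    rfl
  have hO : ∀ t, t ∈ Ioo (t₀ - δ₁) (t₀ + δ₁) ↔ |t - t₀| < δ₁ := by
    intro t
    rw [abs_lt]
    constructor
    · rintro ⟨h1, h2⟩
      exact ⟨by linarith, by linarith⟩
    · rintro ⟨h1, h2⟩
      exact ⟨by linarith, by linarith⟩
  -- the end points form an integral curve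
  have hend : ∀ t₁, |t₁ - t₀| < δ₁ → HasDerivAt (fun t => ζ t β)
      ((b - c)⁻¹ • fld (R.DX8_Y (ζ t₁ β)) (ζ t₁ β)) t₁ := by
    intro t₁ ht₁
    set e : ℝ := δ₁ - |t₁ - t₀| with he
    have he0 : 0 < e := by rw [he]; linarith
    have hin : ∀ t ∈ Ioo (t₁ - e) (t₁ + e), |t - t₀| < δ₁ := by
      intro t ht
      have h1 : |t - t₁| < e := by rw [abs_lt]; exact ⟨by linarith [ht.1], by linarith [ht.2]⟩
      calc |t - t₀| = |(t - t₁) + (t₁ - t₀)| := by congr 1; ring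
        _ ≤ |t - t₁| + |t₁ - t₀| := abs_add_le _ _
        _ < δ₁ := by rw [he] at h1; linarith
    refine W7_comm (W ∩ R.N) (hT.cone.isOpen.inter R.N_cone.isOpen)
      (fun p => (b - c)⁻¹ • fld (R.DX8_Y p) p) (fun p => fld (T p) p) ?_ ?_ (fun s t => ζ t s) β t₁ e
      hβ he0 ?_ ?_ ?_ β hββ
    · intro x hx
      exact ((R.DX8_Z_smooth hx.2 _).of_le (by simp)).contDiffWithinAt
    · exact ((DXa_smooth hT).mono inter_subset_left).of_le (by simp)
    · intro t ht s hs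
      have h1 := (hζ t (hin t ht)).2 s (hsub hs)
      exact ⟨⟨h1.1, hW h1.1⟩, h1.2.hasDerivWithinAt⟩
    · intro t ht s hs
      have h1 := (hζ t (hin t ht)).2 s (hsub hs)
      exact R.DX8_bracket hNC hT hW h1.1 (hS2 t (hin t ht) s hs) _
    · intro t ht
      have h1 : HasDerivAt y (R.Xg (y t)) t := (hy t (mem_univ t)).2
      have h2 : (fun r => ζ r 0) =ᶠ[𝓝 t] y := by
        filter_upwards [isOpen_Ioo.mem_nhds ht] with t' ht'
        exact (hζ t' (hin t' ht')).1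
      have h3 := h1.congr_of_eventuallyEq h2
      show HasDerivAt (fun r => ζ r 0) ((b - c)⁻¹ • fld (R.DX8_Y (ζ t 0)) (ζ t 0)) t
      rw [(hζ t (hin t ht)).1, hZy t]
      exact h3
  have hsol1 : Sol (fun p => (b - c)⁻¹ • fld (R.DX8_Y p) p) R.N (fun t => ζ t β)
      (Ioo (t₀ - δ₁) (t₀ + δ₁)) := by
    intro t ht
    have ht' := (hO t).1 ht
    exact ⟨R.S2_sub_N (hS2 t ht' β hββ), hend t ht'⟩
  have hsol2 : Sol (fun p => (b - c)⁻¹ • fld (R.DX8_Y p) p) R.N (fun t => y (t + w))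
      (Ioo (t₀ - δ₁) (t₀ + δ₁)) := by
    intro t ht
    refine ⟨(hy _ (mem_univ _)).1, ?_⟩
    simp only
    rw [hZy (t + w)]
    exact (hy _ (mem_univ _)).2.comp_add_const t w
  have ht₀ : |t₀ - t₀| < δ₁ := by rw [sub_self, abs_zero]; exact hδ₁
  have hag : ζ t₀ β = y (t₀ + w) := by
    have h1 := R.DXa_comp hT hW hβ.le hβδ (hζ t₀ ht₀).2 hγ (by rw [hγ0, (hζ t₀ ht₀).1])
      (by rw [(hζ t₀ ht₀).1, hTv]) β hββ
    rw [← h1, hγβ]
  have huniq := Pool.Agent.helper25.B2.sol_unique R.N_cone.isOpen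
    (fun x hx => (R.DX8_Z_smooth hx ((b - c)⁻¹)).of_le (by simp)) ordConnected_Ioo hsol1 hsol2
    ((hO t₀).2 ht₀) hag
  intro t ht
  exact ⟨ζ t, _, hcur t ht, (hζ t ht).1, huniq ((hO t).2 ht)⟩

/-- short curves of `F3` near a point: the primitive measures the length -/
theorem DX8_local {z : E4} (hz : z ∈ R.N) : ∃ (r δ : ℝ) (f : E4 → ℝ), 0 < r ∧ 0 < δ ∧
    ContinuousAt f z ∧ ∀ (β : ℝ) (γ v : ℝ → E4), 0 ≤ β → β < δ → R.F3.IsCurve γ v (Icc 0 β) →
      ‖γ 0 - z‖ < r → |f (γ β) - f (γ 0)| = β := by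
  obtain ⟨W, T, hWN, hzW, hT⟩ := R.DXa_root hz
  obtain ⟨ρ, f, hρ, hρW, hf⟩ := DXa_prim hT hzW
  have hs := DXa_smooth hT
  obtain ⟨r, hr, δ, hδ, hex⟩ := Pool.Agent.helper25.B2.FU_local (X := fun p => fld (T p) p)
    Metric.isOpen_ball (Metric.mem_ball_self hρ)
    ((hs.contDiffAt (hT.cone.isOpen.mem_nhds hzW)).of_le (by simp))
  refine ⟨r, δ, f, hr, hδ, (hf z (Metric.mem_ball_self hρ)).continuousAt,
    fun β γ v hβ hβδ hγ hγ0 => ?_⟩
  obtain ⟨ζ, hζ0, hζ⟩ := hex (γ 0) (by rw [Metric.mem_closedBall, dist_eq_norm]; exact hγ0.le)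
  have hζW : Sol (fun p => fld (T p) p) W ζ (Ioo (-δ) δ) := fun t ht =>
    ⟨hρW (hζ t ht).1, (hζ t ht).2⟩
  have h0I : (0 : ℝ) ∈ Ioo (-δ) δ := ⟨by linarith, hδ⟩
  have hββ : β ∈ Icc 0 β := ⟨hβ, le_rfl⟩
  have hlen : ∀ t ∈ Ioo (-δ) δ, f (ζ t) = f (γ 0) + t := by
    intro t ht
    have := DXa_const (y := fun t => f (ζ t)) (a := -δ) (b := δ) (c := (1 : ℝ)) (by
      intro t ht
      have h1 := (hf _ (hζ t ht).1).comp_hasDerivAt t (hζ t ht).2
      rw [DXa_theta_T hT (hζW t ht).1] at h1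
      exact h1) h0I ht
    simp only [hζ0, sub_zero, smul_eq_mul, mul_one] at this
    exact this
  have hγ0W : γ 0 ∈ W := by rw [← hζ0]; exact (hζW 0 h0I).1
  rcases ((R.DXa_Rt hT hγ0W).2 (v 0)).1 (hγ.2 0 ⟨le_rfl, hβ⟩).2.1 with hv | hv
  · have h1 := R.DXa_comp hT hWN hβ hβδ hζW hγ hζ0.symm (by rw [hζ0, hv]) β hββ
    rw [h1, hlen β ⟨by linarith, hβδ⟩, add_sub_cancel_left, abs_of_nonneg hβ]
  · have h2 : Sol (fun p => fld (-T p) p) W (fun s => ζ (-s)) (Ioo (-δ) δ) := by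
      have h2 := Pool.Agent.helper25.B2.FQ_reverse hζW
      intro s hs
      have h3 := h2 s ⟨by linarith [hs.2], by linarith [hs.1]⟩
      refine ⟨h3.1, ?_⟩
      have h4 := h3.2
      simp only at h4
      convert h4 using 1
      simp [fld]
    have h1 := R.DXa_comp (DXa_neg hT) hWN hβ hβδ h2 hγ (by rw [neg_zero, hζ0]) (by
      rw [neg_zero, hζ0, hv]; simp [fld]) β hββ
    rw [h1, hlen (-β) ⟨by linarith, by linarith⟩, add_sub_cancel_left, abs_neg, abs_of_nonneg hβ]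

theorem DX8_compact {c b h₀ : ℝ} (hcb : b ≠ c) {ρ : ℝ} (hρ : 0 < ρ) :
    IsCompact (R.Gs c b h₀ ∩ Metric.sphere 0 ρ) := by
  refine Metric.isCompact_of_isClosed_isBounded ?_ (Metric.isBounded_sphere.subset inter_subset_right)
  refine isClosed_of_closure_subset fun x hx => ?_
  have h1 : x ∈ Metric.sphere (0 : E4) ρ :=
    closure_minimal inter_subset_right Metric.isClosed_sphere hx
  have hx0 : x ≠ 0 := by
    intro h0
    rw [h0, mem_sphere_zero_iff_norm, norm_zero] at h1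
    exact hρ.ne h1
  exact ⟨R.Gs_closed hcb hx0 (closure_mono inter_subset_left hx), h1⟩

theorem DX8 (hNC : S.NC) {q : E4} (hq : q ∈ R.S2) (hN : R.Nn q = 0) (hh : 0 < R.h q) : False := by
  obtain ⟨y, z, κ, hy, hκ, hyG, hyz, hzG, hXz, hlow⟩ := R.DX5 hNC hq hN hh
  have hcb : R.far q ≠ R.τ q := ((R.far_S2 (R.S2_sub_N hq)).1 hq).2
  have hG : ∀ t, y t ∈ R.Gs (R.τ q) (R.far q) (R.h q) := fun t => (hyG t).1
  set ρ : ℝ := ‖y 0‖ with hρdef
  have hy0 : y 0 ≠ 0 := (hG 0).1.1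
  have hρ : 0 < ρ := norm_pos_iff.2 hy0
  set K : Set E4 := R.Gs (R.τ q) (R.far q) (R.h q) ∩ Metric.sphere 0 ρ with hK
  have hKc : IsCompact K := R.DX8_compact hcb hρ
  have hKN : K ⊆ R.N := fun x hx => R.S2_sub_N hx.1.1
  have hyK : ∀ t, y t ∈ K := fun t => ⟨hG t, by rw [mem_sphere_zero_iff_norm]; exact (hyG t).2⟩
  have hXc : ContinuousOn R.Xg K := fun x hx =>
    ((R.smN (hKN hx)).2.2.2.2.2.2.2).continuousAt.continuousWithinAt
  obtain ⟨C, hC⟩ := hKc.exists_bound_of_continuousOn hXc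
  have hC0 : 0 ≤ C := (norm_nonneg _).trans (hC _ (hyK 0))
  have hLip : ∀ s t, ‖y t - y s‖ ≤ C * |t - s| := by
    intro s t
    have h1 := convex_univ.norm_image_sub_le_of_norm_hasDerivWithin_le
      (f := y) (f' := fun t => R.Xg (y t)) (C := C) (s := univ)
      (fun t _ => (hy t (mem_univ t)).2.hasDerivWithinAt) (fun t _ => hC _ (hyK t))
      (mem_univ s) (mem_univ t)
    rw [Real.norm_eq_abs] at h1
    exact h1
  obtain ⟨r, δ, hr, hδ, hunif⟩ := R.DXa_unif hKc hKN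
  obtain ⟨rz, δz, f, hrz, hδz, hfz, hloc⟩ := R.DX8_local (R.S2_sub_N hzG.1)
  -- recurrence
  obtain ⟨p, hpK, φ, hφ, hφp⟩ := hKc.tendsto_subseq (x := fun n : ℕ => y n) (fun n => hyK n)
  have hXp : R.X p ≠ 0 := by
    intro h0
    have h1 : Tendsto (fun n => ‖R.Xg (y (φ n))‖) atTop (𝓝 ‖R.Xg p‖) :=
      (((R.smN (hKN hpK)).2.2.2.2.2.2.2).continuousAt.norm.tendsto).comp hφp
    have h2 : κ ≤ ‖R.Xg p‖ := ge_of_tendsto' h1 fun n => hlow _ (Nat.cast_nonneg _)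
    have h3 : R.Xg p = 0 := by
      unfold Xg
      rw [h0]
      simp [fld]
    rw [h3, norm_zero] at h2
    linarith
  set ε : ℝ := min (1 / 4) (min δ δz) with hε
  have hε0 : 0 < ε := lt_min (by norm_num) (lt_min hδ hδz)
  obtain ⟨ε', r', hε'0, hε'ε, hr', hdx⟩ := R.DX6 hNC hcb hh.ne' hpK.1 hXp hε0
  have hε'4 : ε' ≤ 1 / 4 := hε'ε.trans (min_le_left _ _)
  have hε'δ : ε' ≤ δ := hε'ε.trans ((min_le_right _ _).trans (min_le_left _ _))
  have hε'δz : ε' ≤ δz := hε'ε.trans ((min_le_right _ _).trans (min_le_right _ _))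
  obtain ⟨N₀, hN₀⟩ := (Metric.tendsto_atTop.1 hφp) r' hr'
  set ti : ℝ := (φ N₀ : ℝ) with hti
  set tj : ℝ := (φ (N₀ + 1) : ℝ) with htj
  have htij : ti + 1 ≤ tj := by
    have := hφ (Nat.lt_succ_self N₀)
    rw [hti, htj]
    exact_mod_cast this
  have hti0 : 0 ≤ ti := Nat.cast_nonneg _
  obtain ⟨β, a, γ, v, η, hβ, ha, hγ, hγ0, hη, hη0, hηa⟩ := hdx (y ti) (y tj) (hG _) (hG _)
    (by have := hN₀ N₀ le_rfl; rw [dist_eq_norm] at this; exact this)
    (by have := hN₀ (N₀ + 1) (Nat.le_succ _); rw [dist_eq_norm] at this; exact this)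
    (by rw [(hyG ti).2, (hyG tj).2])
  have hXs : ∀ x ∈ R.N, ContDiffAt ℝ 1 R.Xg x := fun x hx =>
    ((R.smN hx).2.2.2.2.2.2.2).of_le (by simp)
  have haI : a ∈ Ioo (-ε') ε' := abs_lt.1 ha
  set w : ℝ := tj - a - ti with hw
  have hw0 : 0 < w := by
    rw [hw]
    linarith [(abs_lt.1 ha).2]
  have hη0y : γ β = y (ti + w) := by
    have h1 : Sol R.Xg R.N (fun s => y (s + (tj - a))) (Ioo (-ε') ε') := fun s _ =>
      ⟨(hy _ (mem_univ _)).1, (hy _ (mem_univ _)).2.comp_add_const s (tj - a)⟩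
    have h2 := Pool.Agent.helper25.B2.sol_unique R.N_cone.isOpen hXs ordConnected_Ioo hη h1 haI (by
      show η a = y (a + (tj - a))
      rw [hηa]; congr 1; ring)
    have h3 : η 0 = y (0 + (tj - a)) := h2 ⟨by linarith, hε'0⟩
    rw [← hη0, h3]
    congr 1
    rw [hw]; ring
  set β' : ℝ := |β| with hβ'
  have hβ'0 : 0 ≤ β' := abs_nonneg _
  -- the initial curve
  have hQ0 : ∃ γ v : ℝ → E4, R.F3.IsCurve γ v (Icc 0 β') ∧ γ 0 = y ti ∧ γ β' = y (ti + w) := by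
    rcases le_total 0 β with h0 | h0
    · have : β' = β := abs_of_nonneg h0
      rw [this]
      exact ⟨γ, v, W5_mono hγ fun t ht => ⟨by linarith [ht.1], by linarith [ht.2, (abs_lt.1 hβ).2]⟩,
        hγ0, hη0y⟩
    · have h1 : β' = -β := abs_of_nonpos h0
      rw [h1]
      refine ⟨fun t => γ (-t), fun t => -v (-t), W5_mono (W5_reverse hγ) fun t ht => ?_, ?_, ?_⟩
      · exact ⟨by linarith [ht.2, (abs_lt.1 hβ).1], by linarith [ht.1]⟩
      · simp only [neg_zero, hγ0]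
      · simp only [neg_neg, hη0y]
  have hper : y ti = y (ti + w) := by
    rcases hβ'0.eq_or_lt with h0 | hpos
    · obtain ⟨γ', v', -, h1, h2⟩ := hQ0
      rw [← h0] at h2
      rw [← h1, ← h2]
    · exfalso
      set δ₁ : ℝ := r / (C + 1) with hδ₁
      have hδ₁0 : 0 < δ₁ := by positivity
      have hstep : ∀ t₀, (∃ γ v : ℝ → E4, R.F3.IsCurve γ v (Icc 0 β') ∧ γ 0 = y t₀ ∧
          γ β' = y (t₀ + w)) → ∀ t, |t - t₀| < δ₁ →
          ∃ γ v : ℝ → E4, R.F3.IsCurve γ v (Icc 0 β') ∧ γ 0 = y t ∧ γ β' = y (t + w) := by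
        intro t₀ hQ
        refine R.DX8_step hNC hcb hy hG hpos (lt_of_lt_of_le hβ hε'δ) hδ₁0
          (fun w hw => hunif (y t₀) (hyK t₀) w hw) (fun t ht => ?_) hQ
        calc ‖y t - y t₀‖ ≤ C * |t - t₀| := hLip t₀ t
          _ ≤ C * δ₁ := by gcongr
          _ < (C + 1) * δ₁ := by nlinarith
          _ = r := by rw [hδ₁]; field_simp
      have hall : {t | ∃ γ v : ℝ → E4, R.F3.IsCurve γ v (Icc 0 β') ∧ γ 0 = y t ∧
          γ β' = y (t + w)} = univ := by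
        refine IsClopen.eq_univ ⟨?_, ?_⟩ ⟨ti, hQ0⟩
        · rw [← isOpen_compl_iff, Metric.isOpen_iff]
          intro t ht
          refine ⟨δ₁, hδ₁0, fun t' ht' h => ht ?_⟩
          rw [Metric.mem_ball, Real.dist_eq, abs_sub_comm] at ht'
          exact hstep t' h t ht'
        · rw [Metric.isOpen_iff]
          intro t ht
          refine ⟨δ₁, hδ₁0, fun t' ht' => ?_⟩
          rw [Metric.mem_ball, Real.dist_eq] at ht'
          exact hstep t ht t' ht'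
      have hev : ∀ᶠ t in atBot, |f (y (t + w)) - f (y t)| = β' := by
        filter_upwards [hyz (Metric.ball_mem_nhds z hrz)] with t ht
        obtain ⟨γ', v', h1, h2, h3⟩ : t ∈ {t | ∃ γ v : ℝ → E4, R.F3.IsCurve γ v (Icc 0 β') ∧
          γ 0 = y t ∧ γ β' = y (t + w)} := by rw [hall]; exact mem_univ t
        have ht' : ‖y t - z‖ < rz := by
          have : y t ∈ Metric.ball z rz := ht
          rw [Metric.mem_ball, dist_eq_norm] at this
          exact this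
        have h4 := hloc β' γ' v' hβ'0 (lt_of_lt_of_le hβ hε'δz) h1 (by rw [h2]; exact ht')
        rw [h2, h3] at h4
        exact h4
      have hlim : Tendsto (fun t => |f (y (t + w)) - f (y t)|) atBot (𝓝 |f z - f z|) := by
        have h1 : Tendsto (fun t => y (t + w)) atBot (𝓝 z) :=
          hyz.comp (tendsto_atBot_add_const_right _ w tendsto_id)
        exact ((hfz.tendsto.comp h1).sub (hfz.tendsto.comp hyz)).abs
      rw [sub_self, abs_zero] at hlim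
      have := tendsto_nhds_unique (hlim.congr' hev) tendsto_const_nhds
      exact hpos.ne this
  -- periodicity
  have hperall : ∀ t, y t = y (t + w) := by
    have h1 : Sol R.Xg R.N (fun s => y (s + w)) univ := fun s _ =>
      ⟨(hy _ (mem_univ _)).1, (hy _ (mem_univ _)).2.comp_add_const s w⟩
    have h2 := Pool.Agent.helper25.B2.sol_unique R.N_cone.isOpen hXs ordConnected_univ hy h1
      (mem_univ ti) hper
    exact fun t => h2 (mem_univ t)
  have hback : ∀ n : ℕ, y (ti - n * w) = y ti := by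
    intro n
    induction n with
    | zero => simp
    | succ n ih =>
      rw [← ih, hperall (ti - ((n + 1 : ℕ) : ℝ) * w)]
      congr 1
      push_cast
      ring
  have hlimn : Tendsto (fun n : ℕ => y (ti - n * w)) atTop (𝓝 z) := by
    refine hyz.comp ?_
    have h1 : Tendsto (fun n : ℕ => (n : ℝ) * w) atTop atTop :=
      tendsto_natCast_atTop_atTop.atTop_mul_const hw0
    exact tendsto_atBot_add_const_left _ ti (tendsto_neg_atTop_atBot.comp h1)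
  have hyz' : y ti = z := by
    have h1 : Tendsto (fun n : ℕ => y (ti - n * w)) atTop (𝓝 (y ti)) := by
      simp only [hback]
      exact tendsto_const_nhds
    exact tendsto_nhds_unique h1 hlimn
  have h1 := hlow ti hti0
  have h2 : R.Xg (y ti) = 0 := by
    rw [hyz']
    unfold Xg
    rw [hXz]
    simp [fld]
  rw [h2, norm_zero] at h1
  linarith

end Roots

end Pool.Agent.helper68.B2
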