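import Pool.Agent.helper2.B2.DX6b

/-! # MP_b2b189_gt, b2:DX6: local transitivity at a point with `X ≠ 0` -/

set_option autoImplicit false

namespace Pool.Agent.helper68.B2

open scoped ContDiff Topology Matrix
open Matrix Set
open Pool.Agent.helper25.B2 (Sol Block)

variable {S : Geo}

namespace Roots
variable {R : Roots S}

/-- the chart is locally injective -/
theorem DXb_chart {B : Block E4} {z n e : E4 → V3} {q : E4} (D : R.DXB B z n e q) {W : Set E4}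
    {T : E4 → V3} (hT : IsRoot S W R.far 1 T) (hqW : q ∈ W) (hh : R.h q ≠ 0) {ρ₀ : ℝ} (hρ₀ : 0 < ρ₀)
    {f : E4 → ℝ} (hf : ∀ x ∈ Metric.ball q ρ₀, HasFDerivAt f (theta S T x) x) :
    ∃ ρ : ℝ, 0 < ρ ∧ ∀ x y : E4, ‖x - q‖ < ρ → ‖y - q‖ < ρ → f x = f y → B.v x = B.v y →
      (inner ℝ (B.Np q) x : ℝ) = inner ℝ (B.Np q) y → ‖x‖ = ‖y‖ → x = y := by
  have h1 : HasStrictFDerivAt f (theta S T q) q := by
    refine hasStrictFDerivAt_of_hasFDerivAt_of_continuousAt ?_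
      (DXa_theta_smooth hT hqW).continuousAt
    filter_upwards [Metric.ball_mem_nhds q hρ₀] with x hx using hf x hx
  have h2 : HasStrictFDerivAt B.v (fderiv ℝ B.v q) q :=
    (B.smooth_v q D.hq).hasStrictFDerivAt (by simp)
  have h3 : HasStrictFDerivAt (fun x : E4 => (inner ℝ (B.Np q) x : ℝ))
      (innerSL ℝ (B.Np q)) q := (innerSL ℝ (B.Np q)).hasStrictFDerivAt
  have h4 : HasStrictFDerivAt (fun x : E4 => ‖x‖ ^ 2) ((2 : ℕ) • (innerSL ℝ q)) q := by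
    have := (hasStrictFDerivAt_norm_sq (F := E4) q)
    exact this
  have h5 := (h1.prodMk h2).prodMk (h3.prodMk h4)
  obtain ⟨ρ, hρ, hinj⟩ := DXa_inj h5 (by
    intro w hw
    simp only [ContinuousLinearMap.prod_apply, Prod.mk_eq_zero] at hw
    obtain ⟨⟨e1, e2⟩, e3, e4⟩ := hw
    refine DXb_inj D hT hqW hh e1 e2 e3 ?_
    simpa using e4)
  refine ⟨ρ, hρ, fun x y hx hy a1 a2 a3 a4 => hinj x y hx hy ?_⟩
  simp only [a1, a2, a3, a4]

variable (R)

theorem DX6 (hNC : S.NC) {c b h₀ : ℝ} (hcb : b ≠ c) (hh : h₀ ≠ 0) {z : E4}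
    (hz : z ∈ R.Gs c b h₀) (hX : R.X z ≠ 0) {ε : ℝ} (hε : 0 < ε) :
    ∃ ε' r : ℝ, 0 < ε' ∧ ε' ≤ ε ∧ 0 < r ∧ ∀ P P' : E4, P ∈ R.Gs c b h₀ → P' ∈ R.Gs c b h₀ →
      ‖P - z‖ < r → ‖P' - z‖ < r → ‖P‖ = ‖P'‖ →
      ∃ (β a : ℝ) (γ v η : ℝ → E4), |β| < ε' ∧ |a| < ε' ∧
        R.F3.IsCurve γ v (Icc (-ε') ε') ∧ γ 0 = P ∧ Sol R.Xg R.N η (Ioo (-ε') ε') ∧ η 0 = γ β ∧
        η a = P' := by
  obtain ⟨B, zf, n, e, D⟩ := R.DXb_block hNC hz.1 hX
  have hqN : z ∈ R.N := D.sub D.hq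
  obtain ⟨W, T, hWN, hqW, hT⟩ := R.DXa_root hqN
  obtain ⟨ρ₀, f, hρ₀, hρW, hf⟩ := DXa_prim hT hqW
  have hhz : R.h z ≠ 0 := by rw [hz.2.2.2.1]; exact hh
  obtain ⟨ρ₁, hρ₁, hinj⟩ := DXb_chart D hT hqW hhz hρ₀ hf
  have hNp : B.Np z ≠ 0 := by
    intro h0
    have := B.cp_Np z D.hq
    rw [h0, map_zero] at this
    exact zero_ne_one this
  set M₀ : ℝ := B.u z * inner ℝ (B.Np z) (B.Np z) with hM₀
  have hM₀0 : M₀ ≠ 0 := by
    refine mul_ne_zero D.uq ?_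
    rw [real_inner_self_eq_norm_sq]
    exact pow_ne_zero 2 (norm_ne_zero_iff.2 hNp)
  set κ : ℝ := |M₀| / 2 with hκdef
  have hκ : 0 < κ := by positivity
  set M : ℝ := ‖fld (T z) z‖ + 1 with hM
  have hMpos : 0 < M := by positivity
  -- the good ball
  have hTs := DXa_smooth hT
  have hev : ∀ᶠ x in 𝓝 z, x ∈ B.W ∧ B.a x ≠ 0 ∧ x ∈ W ∧ x ∈ Metric.ball z ρ₀ ∧ x ∈ Metric.ball z ρ₁ ∧
      |B.u x * inner ℝ (B.Np z) (B.Np x) - M₀| < κ ∧ ‖fld (T x) x‖ < M := by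
    have c1 : ContinuousAt (fun x => B.u x * (inner ℝ (B.Np z) (B.Np x) : ℝ) - M₀) z :=
      (((B.smooth_u z D.hq).continuousAt).mul (continuousAt_const.inner
        ((B.smooth_Np z D.hq).continuousAt))).sub continuousAt_const
    have c2 : ContinuousAt (fun x => ‖fld (T x) x‖) z :=
      ((hTs.contDiffAt (hT.cone.isOpen.mem_nhds hqW)).continuousAt).norm
    filter_upwards [B.isOpen_W.mem_nhds D.hq, (B.smooth_a z D.hq).continuousAt.eventually_ne D.aq,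
      hT.cone.isOpen.mem_nhds hqW, Metric.ball_mem_nhds z hρ₀, Metric.ball_mem_nhds z hρ₁,
      (c1.abs).eventually_lt (continuousAt_const (y := κ)) (by
        show |B.u z * (inner ℝ (B.Np z) (B.Np z) : ℝ) - M₀| < κ
        rw [← hM₀, sub_self, abs_zero]; exact hκ),
      c2.eventually_lt (continuousAt_const (y := M)) (by
        show ‖fld (T z) z‖ < M
        rw [hM]; linarith)] with x h1 h2 h3 h4 h5 h6 h7
    exact ⟨h1, h2, h3, h4, h5, h6, h7⟩
  obtain ⟨ρ, hρ, hgood⟩ := Metric.eventually_nhds_iff_ball.1 hev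
  have hzρ : z ∈ Metric.ball z ρ := Metric.mem_ball_self hρ
  -- local flows
  obtain ⟨r₁, hr₁, δ₁, hδ₁, hex₁⟩ := Pool.Agent.helper25.B2.FU_local (X := fun p => fld (T p) p)
    Metric.isOpen_ball hzρ ((hTs.contDiffAt (hT.cone.isOpen.mem_nhds hqW)).of_le (by simp))
  obtain ⟨r₂, hr₂, δ₂, hδ₂, hex₂⟩ := Pool.Agent.helper25.B2.FU_local
    (X := fun p => B.u p • B.Np p) Metric.isOpen_ball hzρ
    (((B.smooth_u z D.hq).smul (B.smooth_Np z D.hq)).of_le (by simp))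
  set ε' : ℝ := min ε (min δ₂ (δ₁ / 2)) with hε'
  have hε'0 : 0 < ε' := lt_min hε (lt_min hδ₂ (by positivity))
  have hε'δ₂ : ε' ≤ δ₂ := (min_le_right _ _).trans (min_le_left _ _)
  have hε'δ₁ : ε' < δ₁ := lt_of_le_of_lt ((min_le_right _ _).trans (min_le_right _ _)) (by linarith)
  set s : ℝ := min (r₂ / 2) (κ * ε' / (4 * (‖B.Np z‖ + 1))) with hs
  have hs0 : 0 < s := lt_min (by positivity) (by positivity)
  have hs1 : s ≤ r₂ / 2 := min_le_left _ _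
  have hs2 : s * (4 * (‖B.Np z‖ + 1)) ≤ κ * ε' := by
    rw [← le_div_iff₀ (by positivity)]; exact min_le_right _ _
  set m : ℝ := min ε' (s / M) with hm
  have hm0 : 0 < m := lt_min hε'0 (by positivity)
  have hmM : M * m ≤ s := by
    have : m ≤ s / M := min_le_right _ _
    rw [le_div_iff₀ hMpos] at this
    linarith
  have hfc : ContinuousAt f z := (hf z (Metric.mem_ball_self hρ₀)).continuousAt
  obtain ⟨r₃, hr₃, hf₃⟩ := Metric.continuousAt_iff.1 hfc (m / 2) (by positivity)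
  refine ⟨ε', min (min ρ r₁) (min s r₃), hε'0, min_le_left _ _,
    lt_min (lt_min hρ hr₁) (lt_min hs0 hr₃), fun P P' hP hP' hPz hP'z hPP' => ?_⟩
  have hPρ : ‖P - z‖ < ρ := hPz.trans_le ((min_le_left _ _).trans (min_le_left _ _))
  have hP'ρ : ‖P' - z‖ < ρ := hP'z.trans_le ((min_le_left _ _).trans (min_le_left _ _))
  have hPr₁ : ‖P - z‖ < r₁ := hPz.trans_le ((min_le_left _ _).trans (min_le_right _ _))
  have hPs : ‖P - z‖ < s := hPz.trans_le ((min_le_right _ _).trans (min_le_left _ _))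
  have hP's : ‖P' - z‖ < s := hP'z.trans_le ((min_le_right _ _).trans (min_le_left _ _))
  have hPr₃ : ‖P - z‖ < r₃ := hPz.trans_le ((min_le_right _ _).trans (min_le_right _ _))
  have hP'r₃ : ‖P' - z‖ < r₃ := hP'z.trans_le ((min_le_right _ _).trans (min_le_right _ _))
  set β : ℝ := f P' - f P with hβ
  have hβm : |β| < m := by
    have a1 := hf₃ (x := P) (by rw [dist_eq_norm]; exact hPr₃)
    have a2 := hf₃ (x := P') (by rw [dist_eq_norm]; exact hP'r₃)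
    rw [Real.dist_eq] at a1 a2
    calc |β| = |(f P' - f z) - (f P - f z)| := by rw [hβ]; congr 1; ring
      _ ≤ |f P' - f z| + |f P - f z| := abs_sub _ _
      _ < m := by linarith
  have hβε : |β| < ε' := hβm.trans_le (min_le_left _ _)
  -- the curve of the far root
  obtain ⟨ζ, hζ0, hζ⟩ := hex₁ P (by rw [Metric.mem_closedBall, dist_eq_norm]; exact hPr₁.le)
  have hζW : Sol (fun p => fld (T p) p) W ζ (Ioo (-δ₁) δ₁) := fun t ht =>
    ⟨(hgood _ (hζ t ht).1).2.2.1, (hζ t ht).2⟩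
  have hcurve : R.F3.IsCurve ζ (fun t => fld (T (ζ t)) (ζ t)) (Icc (-ε') ε') :=
    W5_mono (R.DXa_curve hT hWN hζW) (fun t ht => ⟨by linarith [ht.1], by linarith [ht.2]⟩)
  have h0I : (0 : ℝ) ∈ Ioo (-δ₁) δ₁ := ⟨by linarith, hδ₁⟩
  have hβI : β ∈ Ioo (-δ₁) δ₁ := ⟨by linarith [(abs_lt.1 hβε).1], by linarith [(abs_lt.1 hβε).2]⟩
  have hβIcc : β ∈ Icc (-ε') ε' := ⟨(abs_lt.1 hβε).1.le, (abs_lt.1 hβε).2.le⟩
  obtain ⟨hP1S2, hP1n⟩ := R.DX7_curve hNC hcurve (by linarith) hε'0.le (by rw [hζ0]; exact hP.1)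
    β hβIcc
  have hfζ : f (ζ β) = f P + β := by
    have := DXa_const (y := fun t => f (ζ t)) (a := -δ₁) (b := δ₁) (c := (1 : ℝ)) (by
      intro t ht
      have h1 := (hf _ (hgood _ (hζ t ht).1).2.2.2.1).comp_hasDerivAt t (hζ t ht).2
      rw [DXa_theta_T hT (hζW t ht).1] at h1
      exact h1) h0I hβI
    simp only [hζ0, sub_zero, smul_eq_mul, mul_one] at this
    exact this
  have hζβ : ‖ζ β - P‖ ≤ M * |β| := by
    have h1 := (convex_Ioo (-δ₁) δ₁).norm_image_sub_le_of_norm_hasDerivWithin_le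
      (f := ζ) (f' := fun t => fld (T (ζ t)) (ζ t)) (C := M)
      (fun t ht => (hζ t ht).2.hasDerivWithinAt) (fun t ht => (hgood _ (hζ t ht).1).2.2.2.2.2.2.le)
      h0I hβI
    rw [hζ0, sub_zero, Real.norm_eq_abs] at h1
    exact h1
  have hMβ : M * |β| < s := lt_of_lt_of_le (mul_lt_mul_of_pos_left hβm hMpos) hmM
  have hP1z : ‖ζ β - z‖ < 2 * s := by
    calc ‖ζ β - z‖ = ‖(ζ β - P) + (P - z)‖ := by congr 1; abel
      _ ≤ ‖ζ β - P‖ + ‖P - z‖ := norm_add_le _ _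
      _ < 2 * s := by linarith
  -- the curve of `X`
  obtain ⟨η, hη0, hη⟩ := hex₂ (ζ β) (by rw [Metric.mem_closedBall, dist_eq_norm]; linarith)
  have h0I₂ : (0 : ℝ) ∈ Ioo (-δ₂) δ₂ := ⟨by linarith, hδ₂⟩
  have hηB : ∀ t ∈ Ioo (-δ₂) δ₂, η t ∈ B.W := fun t ht => (hgood _ (hη t ht).1).1
  have hb0 : B.b (η 0) = 0 := by
    rw [hη0]
    exact (DXb_S2 D (hgood _ (hζ β hβI).1).1 (hgood _ (hζ β hβI).1).2.1).1 hP1S2
  have hbη : ∀ t ∈ Ioo (-δ₂) δ₂, B.b (η t) = 0 := by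
    refine Pool.Agent.helper25.B2.Block.BH_linear (y := fun t => B.b (η t))
      (p := fun t => 2 * B.om (η t) (B.u (η t) • B.Np (η t))) ordConnected_Ioo ?_ ?_ h0I₂ hb0
    · intro t ht
      have hx := hηB t ht
      have h1 := ((B.smooth_b _ hx).differentiableAt (by simp)).hasFDerivAt.comp_hasDerivAt t
        (hη t ht).2
      rw [B.db _ hx, map_smul (B.cm (η t)), B.cm_Np _ hx] at h1
      refine h1.congr_deriv ?_
      simp only [smul_zero, mul_zero, add_zero]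
      ring
    · intro t ht
      have hx := hηB t ht
      have hc : ContinuousAt η t := (hη t ht).2.continuousAt
      refine ContinuousAt.continuousWithinAt ?_
      refine continuousAt_const.mul ?_
      exact ((B.smooth_om _ hx).continuousAt.comp hc).clm_apply
        (((B.smooth_u _ hx).continuousAt.comp hc).smul ((B.smooth_Np _ hx).continuousAt.comp hc))
  have hvη : ∀ t ∈ Ioo (-δ₂) δ₂, B.v (η t) = 0 := fun t ht => D.A.2 _ (hηB t ht) (hbη t ht)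
  have hXη : Sol R.Xg R.N η (Ioo (-ε') ε') := by
    intro t ht
    have ht' : t ∈ Ioo (-δ₂) δ₂ := ⟨by linarith [ht.1], by linarith [ht.2]⟩
    have hx := hηB t ht'
    refine ⟨D.sub hx, ?_⟩
    rw [D.Xg _ hx, hvη t ht', zero_smul, add_zero]
    exact (hη t ht').2
  have hfη : ∀ t ∈ Ioo (-δ₂) δ₂, f (η t) = f (η 0) := by
    intro t ht
    have := DXa_const (y := fun t => f (η t)) (a := -δ₂) (b := δ₂) (c := (0 : ℝ)) (by
      intro t ht
      have hg := hgood _ (hη t ht).1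
      have h1 := (hf _ hg.2.2.2.1).comp_hasDerivAt t (hη t ht).2
      rw [map_smul, DXb_theta_Np D hT hg.1 hg.2.2.1, smul_zero] at h1
      exact h1) h0I₂ ht
    simpa using this
  have hnη : ∀ t ∈ Ioo (-δ₂) δ₂, ‖η t‖ = ‖η 0‖ := by
    intro t ht
    have := DXa_const (y := fun t => ‖η t‖ ^ 2) (a := -δ₂) (b := δ₂) (c := (0 : ℝ)) (by
      intro t ht
      have hx := hηB t ht
      have h1 : HasDerivAt (fun t => ‖η t‖ ^ 2)
          (2 * inner ℝ (η t) (B.u (η t) • B.Np (η t))) t := (hη t ht).2.norm_sq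
      rw [D.of.Np _ hx, inner_smul_right, Pool.Agent.helper68.B2.T.inner_fld, mul_zero,
        mul_zero] at h1
      exact h1) h0I₂ ht
    simp only [smul_zero, add_zero] at this
    exact (pow_left_inj₀ (norm_nonneg _) (norm_nonneg _) two_ne_zero).1 this
  -- intermediate value
  have hderg : ∀ t ∈ Ioo (-ε') ε', HasDerivAt (fun t => (inner ℝ (B.Np z) (η t) : ℝ))
      (B.u (η t) * inner ℝ (B.Np z) (B.Np (η t))) t := by
    intro t ht
    have ht' : t ∈ Ioo (-δ₂) δ₂ := ⟨by linarith [ht.1], by linarith [ht.2]⟩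
    have h1 := (innerSL ℝ (B.Np z)).hasFDerivAt.comp_hasDerivAt t (hη t ht').2
    have h2 : (innerSL ℝ (B.Np z)) (B.u (η t) • B.Np (η t)) =
        B.u (η t) * inner ℝ (B.Np z) (B.Np (η t)) := by
      rw [innerSL_apply_apply, inner_smul_right]
    rw [h2] at h1
    exact h1
  have hnear : ∀ t ∈ Ioo (-ε') ε', |B.u (η t) * inner ℝ (B.Np z) (B.Np (η t)) - M₀| < κ := by
    intro t ht
    have ht' : t ∈ Ioo (-δ₂) δ₂ := ⟨by linarith [ht.1], by linarith [ht.2]⟩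
    exact (hgood _ (hη t ht').1).2.2.2.2.2.1
  have hdist : |(inner ℝ (B.Np z) P' : ℝ) - inner ℝ (B.Np z) (η 0)| < κ * ε' := by
    rw [← inner_sub_right, hη0]
    calc |(inner ℝ (B.Np z) (P' - ζ β) : ℝ)| ≤ ‖B.Np z‖ * ‖P' - ζ β‖ := abs_real_inner_le_norm _ _
      _ ≤ ‖B.Np z‖ * (3 * s) := by
          refine mul_le_mul_of_nonneg_left ?_ (norm_nonneg _)
          calc ‖P' - ζ β‖ = ‖(P' - z) - (ζ β - z)‖ := by congr 1; abel
            _ ≤ ‖P' - z‖ + ‖ζ β - z‖ := norm_sub_le _ _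
            _ ≤ 3 * s := by linarith
      _ < s * (4 * (‖B.Np z‖ + 1)) := by nlinarith [norm_nonneg (B.Np z)]
      _ ≤ κ * ε' := hs2
  have hival : ∃ a, |a| < ε' ∧ (inner ℝ (B.Np z) (η a) : ℝ) = inner ℝ (B.Np z) P' := by
    rcases lt_or_gt_of_ne hM₀0 with hneg | hpos
    · have h2κ : M₀ = -(2 * κ) := by rw [hκdef, abs_of_neg hneg]; ring
      obtain ⟨a, ha, hga⟩ := DXa_ivt (g := fun t => -(inner ℝ (B.Np z) (η t) : ℝ))
        (g' := fun t => -(B.u (η t) * inner ℝ (B.Np z) (B.Np (η t))))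
        (τ := -(inner ℝ (B.Np z) P' : ℝ)) hκ
        (fun t ht => (hderg t ht).neg) (fun t ht => by
          have := (abs_lt.1 (hnear t ht)).2
          linarith) (by
          rw [neg_sub_neg, abs_sub_comm]; exact hdist)
      exact ⟨a, ha, by linarith⟩
    · have h2κ : M₀ = 2 * κ := by rw [hκdef, abs_of_pos hpos]; ring
      obtain ⟨a, ha, hga⟩ := DXa_ivt (g := fun t => (inner ℝ (B.Np z) (η t) : ℝ))
        (g' := fun t => (B.u (η t) * inner ℝ (B.Np z) (B.Np (η t))))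
        (τ := (inner ℝ (B.Np z) P' : ℝ)) hκ hderg (fun t ht => by
          have := (abs_lt.1 (hnear t ht)).1
          linarith) hdist
      exact ⟨a, ha, hga⟩
  obtain ⟨a, ha, hga⟩ := hival
  have haI : a ∈ Ioo (-δ₂) δ₂ := ⟨by linarith [(abs_lt.1 ha).1], by linarith [(abs_lt.1 ha).2]⟩
  refine ⟨β, a, ζ, _, η, hβε, ha, hcurve, hζ0, hXη, hη0, ?_⟩
  have hP'mem : P' ∈ Metric.ball z ρ := by rw [Metric.mem_ball, dist_eq_norm]; exact hP'ρ
  have hgP' := hgood _ hP'mem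
  have hgη := hgood _ (hη a haI).1
  refine hinj _ _ ?_ ?_ ?_ ?_ hga ?_
  · have := hgη.2.2.2.2.1
    rw [Metric.mem_ball, dist_eq_norm] at this
    exact this
  · have := hgP'.2.2.2.2.1
    rw [Metric.mem_ball, dist_eq_norm] at this
    exact this
  · rw [hfη a haI, hη0, hfζ, hβ]; ring
  · rw [hvη a haI, D.A.2 _ hgP'.1 ((DXb_S2 D hgP'.1 hgP'.2.1).1 hP'.1)]
  · rw [hnη a haI, hη0, hP1n, hζ0, hPP']

end Roots

end Pool.Agent.helper68.B2
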