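import Mathlib

/-! # MP_b2b189_gt, b2:DX6: general lemmas -/

set_option autoImplicit false

namespace Pool.Agent.helper68.B2

open scoped ContDiff Topology
open Set Filter

theorem DXa_inj {E F : Type*} [NormedAddCommGroup E] [NormedSpace ℝ E] [FiniteDimensional ℝ E]
    [NormedAddCommGroup F] [NormedSpace ℝ F] {f : E → F} {f' : E →L[ℝ] F} {q : E}
    (hf : HasStrictFDerivAt f f' q) (hinj : ∀ w, f' w = 0 → w = 0) :
    ∃ ρ : ℝ, 0 < ρ ∧ ∀ x y : E, ‖x - q‖ < ρ → ‖y - q‖ < ρ → f x = f y → x = y := by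
  have hk : LinearMap.ker (f' : E →ₗ[ℝ] F) = ⊥ := LinearMap.ker_eq_bot'.2 hinj
  obtain ⟨K, hK, hanti⟩ := LinearMap.exists_antilipschitzWith (f' : E →ₗ[ℝ] F) hk
  have hlit := hf.isLittleO
  have hc : (0 : ℝ) < ((K : ℝ) * 2)⁻¹ := by
    have : (0 : ℝ) < K := by exact_mod_cast hK
    positivity
  have h1 := hlit.def hc
  rw [Metric.eventually_nhds_iff] at h1
  obtain ⟨ρ, hρ, h2⟩ := h1
  refine ⟨ρ, hρ, fun x y hx hy hxy => ?_⟩
  have h3 := @h2 (x, y) (by
    rw [Prod.dist_eq, max_lt_iff]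
    exact ⟨by rw [dist_eq_norm]; exact hx, by rw [dist_eq_norm]; exact hy⟩)
  simp only [hxy, sub_self, zero_sub, norm_neg] at h3
  have h4 : ‖x - y‖ ≤ K * ‖f' (x - y)‖ := by
    have := hanti.le_mul_dist x y
    rw [dist_eq_norm, dist_eq_norm, ← map_sub] at this
    exact this
  have hK' : (0 : ℝ) < K := by exact_mod_cast hK
  have h5 : ‖x - y‖ ≤ ‖x - y‖ / 2 := by
    calc ‖x - y‖ ≤ K * ‖f' (x - y)‖ := h4
      _ ≤ K * (((K : ℝ) * 2)⁻¹ * ‖x - y‖) := by gcongr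
      _ = ‖x - y‖ / 2 := by field_simp
  have h6 : ‖x - y‖ = 0 := by linarith [norm_nonneg (x - y)]
  exact sub_eq_zero.1 (norm_eq_zero.1 h6)

theorem DXa_ivt {g g' : ℝ → ℝ} {e κ τ : ℝ} (hκ : 0 < κ)
    (hg : ∀ t ∈ Ioo (-e) e, HasDerivAt g (g' t) t) (hlow : ∀ t ∈ Ioo (-e) e, κ ≤ g' t)
    (hτ : |τ - g 0| < κ * e) : ∃ a, |a| < e ∧ g a = τ := by
  set e₁ : ℝ := |τ - g 0| / κ with he₁
  have h0 : 0 ≤ e₁ := by positivity
  have h1 : e₁ < e := by rw [he₁, div_lt_iff₀ hκ]; linarith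
  have h2 : |τ - g 0| = κ * e₁ := by rw [he₁]; field_simp
  have hsub : Icc (-e₁) e₁ ⊆ Ioo (-e) e := fun t ht => ⟨by linarith [ht.1], by linarith [ht.2]⟩
  have hcont : ContinuousOn g (Icc (-e₁) e₁) := fun t ht =>
    (hg t (hsub ht)).continuousAt.continuousWithinAt
  have hmono : ∀ x ∈ Icc (-e₁) e₁, ∀ y ∈ Icc (-e₁) e₁, x ≤ y → κ * (y - x) ≤ g y - g x := by
    refine (convex_Icc (-e₁) e₁).mul_sub_le_image_sub_of_le_deriv hcont ?_ ?_
    · intro t ht
      rw [interior_Icc] at ht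
      exact (hg t (hsub (Ioo_subset_Icc_self ht))).differentiableAt.differentiableWithinAt
    · intro t ht
      rw [interior_Icc] at ht
      have ht' := hsub (Ioo_subset_Icc_self ht)
      rw [(hg t ht').deriv]
      exact hlow t ht'
  have h3 := hmono 0 ⟨by linarith, h0⟩ e₁ ⟨by linarith, le_rfl⟩ h0
  have h4 := hmono (-e₁) ⟨le_rfl, by linarith⟩ 0 ⟨by linarith, h0⟩ (by linarith)
  have h5 := abs_le.1 h2.le
  have h6 : τ ∈ Icc (g (-e₁)) (g e₁) := ⟨by nlinarith [h5.1], by nlinarith [h5.2]⟩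
  obtain ⟨a, ha, hga⟩ := intermediate_value_Icc (by linarith : -e₁ ≤ e₁) hcont h6
  exact ⟨a, lt_of_le_of_lt (abs_le.2 ⟨ha.1, ha.2⟩) h1, hga⟩

/-- a function with zero derivative on an open interval is constant -/
theorem DXa_const {F : Type*} [NormedAddCommGroup F] [NormedSpace ℝ F] {y : ℝ → F} {a b : ℝ} {c : F}
    (hy : ∀ t ∈ Ioo a b, HasDerivAt y c t) {s t : ℝ} (hs : s ∈ Ioo a b) (ht : t ∈ Ioo a b) :
    y t = y s + (t - s) • c := by
  have h1 : ∀ t ∈ Ioo a b, HasDerivAt (fun t => y t - t • c) 0 t := by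
    intro t ht
    have := (hy t ht).fun_sub ((hasDerivAt_id t).smul_const c)
    simpa using this
  have h2 := (convex_Ioo a b).is_const_of_fderivWithin_eq_zero (𝕜 := ℝ) (f := fun t => y t - t • c)
    (fun x hx => (h1 x hx).differentiableAt.differentiableWithinAt) (fun x hx => by
      rw [fderivWithin_of_isOpen isOpen_Ioo hx]
      have := (h1 x hx).hasFDerivAt.fderiv
      rw [this]
      ext
      simp) hs ht
  have h3 : y s - s • c = y t - t • c := h2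
  have : y t = (y t - t • c) + t • c := by abel
  rw [this, ← h3, sub_smul]
  abel

end Pool.Agent.helper68.B2
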