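import Pool.Agent.helper77.B2.F3
import Pool.Agent.helper15.B2.T3c
import Pool.Agent.helper9.B2.T1b
import Pool.Agent.helper47.B2.PO
import Pool.Agent.helper58.B2.FU
import Pool.Agent.helper58.B2.FQ
import Pool.Agent.helper90.B2.W7

/-! # MP_b2b189_gt, b2:DX6 b2:DX8: auxiliary lemmas: sections of the far root field, its primitive -/

set_option autoImplicit false

namespace Pool.Agent.helper68.B2

open scoped ContDiff Topology Matrix
open Matrix Set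
open Pool.Agent.helper25.B2 (Sol Block)

variable {S : Geo}

theorem DXa_neg {W : Set E4} {μ : E4 → ℝ} {σ : ℝ} {T : E4 → V3} (h : IsRoot S W μ σ T) :
    IsRoot S W μ σ (fun x => -T x) where
  cone := h.cone
  homμ := h.homμ
  homT := fun t ht x => by show -T (t • x) = -T x; rw [h.homT t ht x]
  smμ := h.smμ
  smT := h.smT.neg
  sign := h.sign
  root := h.root
  simple := h.simple
  adj := fun x hx => by
    rw [h.adj x hx, Matrix.mulVec_neg, Matrix.vecMulVec_neg, Matrix.neg_vecMulVec, neg_neg]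

theorem DXa_ne {W : Set E4} {μ : E4 → ℝ} {σ : ℝ} {T : E4 → V3} (h : IsRoot S W μ σ T) {x : E4}
    (hx : x ∈ W) : x ≠ 0 := fun h0 => h.cone.zero (h0 ▸ hx)

theorem DXa_Ku {W : Set E4} {μ : E4 → ℝ} {σ : ℝ} {T : E4 → V3} (h : IsRoot S W μ σ T) {x : E4}
    (hx : x ∈ W) : S.Ku (μ x) x = σ • vecMulVec (T x) (T x) := by
  have hx0 : x ≠ 0 := DXa_ne h hx
  have hu : IsUnit (S.G x).det := isUnit_iff_ne_zero.2 (S.det_neg x hx0).ne
  rw [Geo.Ku, Geo.K, h.adj x hx, Matrix.smul_mul, Matrix.vecMulVec_mul]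
  congr 2
  rw [← Matrix.mulVec_transpose, Matrix.transpose_nonsing_inv, S.symm x hx0,
    Matrix.mulVec_mulVec, Matrix.nonsing_inv_mul _ hu, Matrix.one_mulVec]

theorem DXa_g {W : Set E4} {μ : E4 → ℝ} {σ : ℝ} {T : E4 → V3} (h : IsRoot S W μ σ T)
    {x : E4} (hx : x ∈ W) : S.g x (T x) (T x) ≠ 0 := (T3_eig S h hx 0).2.2.1

/-- smooth section of the root field -/
theorem DXa_smooth {W : Set E4} {μ : E4 → ℝ} {σ : ℝ} {T : E4 → V3} (h : IsRoot S W μ σ T) :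
    ContDiffOn ℝ ∞ (fun p => fld (T p) p) W := by
  unfold fld
  refine ContDiffOn.sum fun i _ => ?_
  exact ((contDiffOn_pi.1 h.smT) i).smul ((J i).contDiff.contDiffOn)

theorem DXa_theta {W : Set E4} {μ : E4 → ℝ} {σ : ℝ} {T : E4 → V3} (h : IsRoot S W μ σ T)
    {x : E4} (hx : x ∈ W) (w : E4) :
    theta S T x w = (S.g x (T x) (T x))⁻¹ * S.g x (T x) (comps x w) := by
  have hx0 : x ≠ 0 := DXa_ne h hx
  unfold theta
  rw [Pool.Agent.helper68.B2.T.form_apply, smul_dotProduct, smul_eq_mul]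
  congr 1
  rw [Pool.Agent.helper68.B2.T.g_symm S hx0, Geo.g, bil, dotProduct_comm]

theorem DXa_theta_T {W : Set E4} {μ : E4 → ℝ} {σ : ℝ} {T : E4 → V3} (h : IsRoot S W μ σ T)
    {x : E4} (hx : x ∈ W) : theta S T x (fld (T x) x) = 1 := by
  rw [DXa_theta h hx, Pool.Agent.helper68.B2.T.comps_fld (DXa_ne h hx)]
  exact inv_mul_cancel₀ (DXa_g h hx)

theorem DXa_form_smooth {α : E4 → V3} {x : E4} (hx : x ≠ 0) (hα : ContDiffAt ℝ ∞ α x) :
    ContDiffAt ℝ ∞ (form α) x := by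
  unfold form
  refine ContDiffAt.sum fun i _ => ?_
  have h1 : ContDiffAt ℝ ∞ (fun y => α y i) x := (contDiffAt_pi.1 hα) i
  have h2 : ContDiffAt ℝ ∞ (fun y : E4 => ‖y‖ ^ 2) x := (contDiff_norm_sq ℝ).contDiffAt
  have h3 : ContDiffAt ℝ ∞ (fun y : E4 => (Pool.Agent.helper68.B2.T.T1b_I (J i y) : E4 →L[ℝ] ℝ)) x :=
    (Pool.Agent.helper68.B2.T.T1b_I.contDiff.comp (J i).contDiff).contDiffAt
  exact (h1.div h2 (by positivity)).smul h3

theorem DXa_theta_smooth {W : Set E4} {μ : E4 → ℝ} {σ : ℝ} {T : E4 → V3} (h : IsRoot S W μ σ T)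
    {x : E4} (hx : x ∈ W) : ContDiffAt ℝ ∞ (theta S T) x := by
  have hx0 : x ≠ 0 := DXa_ne h hx
  have hT : ContDiffAt ℝ ∞ T x := h.smT.contDiffAt (h.cone.isOpen.mem_nhds hx)
  have hG : ContDiffAt ℝ ∞ S.G x := S.smG.contDiffAt hx0
  have hGT : ContDiffAt ℝ ∞ (fun y => S.G y *ᵥ T y) x := by
    refine contDiffAt_pi.2 fun i => ?_
    simp only [Matrix.mulVec, dotProduct]
    refine ContDiffAt.sum fun j _ => ?_
    exact ((contDiffAt_entries.1 hG) i j).mul ((contDiffAt_pi.1 hT) j)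
  have hg : ContDiffAt ℝ ∞ (fun y => S.g y (T y) (T y)) x := by
    simp only [Geo.g, bil, dotProduct]
    refine ContDiffAt.sum fun j _ => ?_
    exact ((contDiffAt_pi.1 hT) j).mul ((contDiffAt_pi.1 hGT) j)
  exact DXa_form_smooth hx0 ((hg.inv (DXa_g h hx)).smul hGT)

/-- primitive of `theta` near a point -/
theorem DXa_prim {W : Set E4} {μ : E4 → ℝ} {σ : ℝ} {T : E4 → V3} (h : IsRoot S W μ σ T)
    {p : E4} (hp : p ∈ W) : ∃ (ρ : ℝ) (f : E4 → ℝ), 0 < ρ ∧ Metric.ball p ρ ⊆ W ∧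
      ∀ x ∈ Metric.ball p ρ, HasFDerivAt f (theta S T x) x := by
  obtain ⟨ρ, hρ, hb⟩ := Metric.isOpen_iff.1 h.cone.isOpen p hp
  refine ⟨ρ, _, hρ, hb, Pool.Agent.helper25.B2.PO_star Metric.isOpen_ball (c := p) ?_ ?_ ?_⟩
  · intro x hx
    exact (convex_ball p ρ).segment_subset (Metric.mem_ball_self hρ) hx
  · intro x hx
    exact (DXa_theta_smooth h (hb hx)).differentiableAt (by simp)
  · intro x hx v w
    exact T3_closed S h (hb hx) v w

namespace Roots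
variable (R : Roots S)

theorem DXa_root {p : E4} (hp : p ∈ R.N) :
    ∃ (W : Set E4) (T : E4 → V3), W ⊆ R.N ∧ p ∈ W ∧ IsRoot S W R.far 1 T := by
  obtain ⟨W, σ, T, hWN, hpW, hT⟩ := T3_root_exists S R.N_cone R.hom_far R.F3_smfar
    (fun x hx => R.F3_root hx) (fun x hx => (R.Pi_pos hx).ne') hp
  refine ⟨W, T, hWN, hpW, ?_⟩
  have hσ : σ = 1 := by
    rcases hT.sign with h | h
    · exact h
    · exfalso
      obtain ⟨w, hw0, -, -, hKu⟩ := R.F3_adj hp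
      have h1 := DXa_Ku hT hpW
      rw [hKu, h] at h1
      apply hw0
      funext i
      have h2 := congrFun (congrFun h1 i) i
      simp only [Matrix.vecMulVec_apply, Matrix.smul_apply, smul_eq_mul] at h2
      have h3 : w i * w i = 0 := le_antisymm (by nlinarith [mul_self_nonneg (T p i)]) (mul_self_nonneg _)
      simpa using h3
  rw [hσ] at hT
  exact hT

theorem DXa_Rt {W : Set E4} {T : E4 → V3} (hT : IsRoot S W R.far 1 T) {x : E4}
    (hx : x ∈ W) : fld (T x) x ≠ 0 ∧ ∀ w, R.F3.Rt x w ↔ (w = fld (T x) x ∨ w = -fld (T x) x) := by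
  have hx0 : x ≠ 0 := DXa_ne hT hx
  have hT0 : T x ≠ 0 := by
    intro h0
    have := DXa_g hT hx
    rw [h0] at this
    apply this
    simp [Geo.g, bil]
  have hKu := DXa_Ku hT hx
  rw [one_smul] at hKu
  refine ⟨fun h0 => hT0 (fld_eq_zero hx0 h0), fun v => ⟨?_, ?_⟩⟩
  · rintro ⟨u, hu, hKu'⟩
    rw [hKu] at hKu'
    rcases F3_vec_eq hT0 hKu'.symm with h3 | h3
    · left; rw [hu, h3]
    · right
      rw [hu, h3]
      simp [fld]
  · rintro (h3 | h3)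
    · exact ⟨T x, h3, hKu⟩
    · refine ⟨-T x, ?_, ?_⟩
      · rw [h3]; simp [fld]
      · rw [Matrix.vecMulVec_neg, Matrix.neg_vecMulVec, neg_neg]; exact hKu

/-- integral curves of sections are curves of `F3` -/
theorem DXa_curve {W : Set E4} {T : E4 → V3} (hT : IsRoot S W R.far 1 T) (hW : W ⊆ R.N)
    {ζ : ℝ → E4} {I : Set ℝ} (h : Sol (fun p => fld (T p) p) W ζ I) :
    R.F3.IsCurve ζ (fun t => fld (T (ζ t)) (ζ t)) I := by
  refine W5_of_sol (F := R.F3) (U := W) (T := fun p => fld (T p) p) hW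
    ((DXa_smooth hT).of_le (by simp)) (fun x hx => R.DXa_Rt hT hx) ?_
  rw [hT.cone.isOpen.interior_eq]
  exact h

/-- comparison of a curve of `F3` with the integral curve of a section -/
theorem DXa_comp {W : Set E4} {T : E4 → V3} (hT : IsRoot S W R.far 1 T) (hW : W ⊆ R.N)
    {ζ γ v : ℝ → E4} {δ b : ℝ} (hb : 0 ≤ b) (hbδ : b < δ)
    (h : Sol (fun p => fld (T p) p) W ζ (Ioo (-δ) δ)) (h' : R.F3.IsCurve γ v (Icc 0 b))
    (h0 : γ 0 = ζ 0) (hv : v 0 = fld (T (ζ 0)) (ζ 0)) : ∀ t ∈ Icc 0 b, γ t = ζ t := by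
  have h1 := W5_mono (R.DXa_curve hT hW h) (J := Icc 0 b) (fun t ht => ⟨by linarith [ht.1], by linarith [ht.2]⟩)
  intro t ht
  exact (W5_unique_gen R.F3 0 b le_rfl hb γ v ζ _ h' h1 h0 hv t ht).1

/-- uniform local existence with sections -/
theorem DXa_unif {K : Set E4} (hK : IsCompact K) (hKN : K ⊆ R.N) :
    ∃ r δ : ℝ, 0 < r ∧ 0 < δ ∧ ∀ x ∈ K, ∀ w, R.F3.Rt x w →
      ∃ (W : Set E4) (T : E4 → V3), W ⊆ R.N ∧ IsRoot S W R.far 1 T ∧ x ∈ W ∧ fld (T x) x = w ∧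
        ∀ x' : E4, ‖x' - x‖ < r → ∃ ζ : ℝ → E4, ζ 0 = x' ∧
          Sol (fun p => fld (T p) p) W ζ (Ioo (-δ) δ) := by
  -- local version
  have hloc : ∀ p ∈ K, ∃ r δ : ℝ, 0 < r ∧ 0 < δ ∧ ∃ (W : Set E4) (T : E4 → V3), W ⊆ R.N ∧
      IsRoot S W R.far 1 T ∧ ∀ x' : E4, ‖x' - p‖ < 2 * r → ∃ ζ : ℝ → E4, ζ 0 = x' ∧
          Sol (fun p => fld (T p) p) W ζ (Ioo (-δ) δ) := by
    intro p hp
    obtain ⟨W, T, hW, hpW, hT⟩ := R.DXa_root (hKN hp)
    have hs := DXa_smooth hT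
    obtain ⟨r, hr, δ, hδ, hex⟩ := Pool.Agent.helper25.B2.FU_local (X := fun p => fld (T p) p)
      hT.cone.isOpen hpW ((hs.contDiffAt (hT.cone.isOpen.mem_nhds hpW)).of_le (by simp))
    refine ⟨r / 2, δ, by positivity, hδ, W, T, hW, hT, fun x' hx' => ?_⟩
    refine hex x' ?_
    rw [Metric.mem_closedBall, dist_eq_norm]
    linarith
  choose! r δ hr hδ W T hW hT hex using hloc
  rcases K.eq_empty_or_nonempty with hKe | hKn
  · exact ⟨1, 1, one_pos, one_pos, fun x hx => by rw [hKe] at hx; exact absurd hx (by simp)⟩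
  obtain ⟨t, htK, htc⟩ := hK.elim_nhds_subcover (fun p => Metric.ball p (r p))
    (fun p hp => Metric.ball_mem_nhds p (hr p hp))
  have htn : t.Nonempty := by
    obtain ⟨x, hx⟩ := hKn
    have := htc hx
    simp only [mem_iUnion] at this
    obtain ⟨p, hp, -⟩ := this
    exact ⟨p, hp⟩
  obtain ⟨p₁, hp₁, hmin₁⟩ := t.exists_min_image r htn
  obtain ⟨p₂, hp₂, hmin₂⟩ := t.exists_min_image δ htn
  refine ⟨r p₁, δ p₂, hr _ (htK _ hp₁), hδ _ (htK _ hp₂), fun x hx w hw => ?_⟩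
  have := htc hx
  simp only [mem_iUnion] at this
  obtain ⟨p, hp, hxp⟩ := this
  rw [Metric.mem_ball, dist_eq_norm] at hxp
  have hpK := htK p hp
  have hex' : ∀ x' : E4, ‖x' - x‖ < r p₁ → ∃ ζ : ℝ → E4, ζ 0 = x' ∧
          Sol (fun q => fld (T p q) q) (W p) ζ (Ioo (-(δ p₂)) (δ p₂)) := by
    intro x' hx'
    obtain ⟨ζ, h0, hζ⟩ := hex p hpK x' (by
      calc ‖x' - p‖ = ‖(x' - x) + (x - p)‖ := by congr 1; abel
        _ ≤ ‖x' - x‖ + ‖x - p‖ := norm_add_le _ _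
        _ < 2 * r p := by linarith [hmin₁ p hp])
    refine ⟨ζ, h0, hζ.mono fun s hs => ⟨?_, ?_⟩⟩
    · linarith [hs.1, hmin₂ p hp]
    · linarith [hs.2, hmin₂ p hp]
  have hxW : x ∈ W p := by
    obtain ⟨ζ, h0, hζ⟩ := hex' x (by rw [sub_self, norm_zero]; exact hr _ (htK _ hp₁))
    have := (hζ 0 ⟨by linarith [hδ _ (htK _ hp₂)], hδ _ (htK _ hp₂)⟩).1
    rwa [h0] at this
  rcases ((R.DXa_Rt (hT p hpK) hxW).2 w).1 hw with h1 | h1
  · exact ⟨W p, T p, hW p hpK, hT p hpK, hxW, h1.symm, hex'⟩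
  · refine ⟨W p, fun q => -T p q, hW p hpK, DXa_neg (hT p hpK), hxW, ?_, ?_⟩
    · rw [h1]; simp [fld]
    · intro x' hx'
      obtain ⟨ζ, h0, hζ⟩ := hex' x' hx'
      refine ⟨fun s => ζ (-s), by simp [h0], ?_⟩
      have h2 := Pool.Agent.helper25.B2.FQ_reverse hζ
      intro s hs
      have h3 := h2 s (by exact ⟨by linarith [hs.2], by linarith [hs.1]⟩)
      refine ⟨h3.1, ?_⟩
      have h4 := h3.2
      simp only at h4
      convert h4 using 1
      simp [fld]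

end Roots

end Pool.Agent.helper68.B2
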