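import Pool.Agent.helper49.B2.FR2
import Pool.Agent.helper2.B2.DXaux
import Pool.Agent.helper2.B2.DX6a
import Pool.Agent.helper92.B2.BH
import Pool.Agent.helper65.B2.BC
import Pool.Agent.helper93.B2.TB

/-! # MP_b2b189_gt, b2:DX6: the normalized block and the chart -/

set_option autoImplicit false

namespace Pool.Agent.helper68.B2

open scoped ContDiff Topology Matrix
open Matrix Set
open Pool.Agent.helper25.B2 (Sol Block)

variable {S : Geo}

theorem DXb_swap {B : Block E4} {z n e : E4 → V3} (h : BlockOf S B z n e) :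
    BlockOf S B.swap n z e where
  cone := h.cone
  homz := h.homn
  homn := h.homz
  home := h.home
  smz := h.smn
  smn := h.smz
  sme := h.sme
  frame := fun x hx => by
    have hx0 : x ≠ 0 := TB_ne h.cone hx
    have hf := TB_fr S hx0 (h.frame x hx)
    have hg := h.frame x hx
    exact ⟨hg.nn, hg.zz, by rw [bil_symm (S.symm x hx0)]; exact hg.zn, hg.ee, hg.ne, hg.ze⟩
  Np := h.Nm
  Nm := h.Np
  Ne := h.Ne
  cp := h.cm
  cm := h.cp
  ce := h.ce
  Lz := h.Ln
  Ln := h.Lz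
  Le := h.Le
  u := h.v
  v := h.u
  k := h.k
  h := fun x hx => by
    have := h.h x hx
    show B.h x = _ - B.k x ^ 2 * (B.l x - B.s x) / ((B.l x - B.s x) ^ 2 - B.b x * B.a x)
    rw [this, mul_comm (B.b x)]
  homs := fun x hx t ht => by
    obtain ⟨h1, h2, h3, h4⟩ := h.homs x hx t ht
    exact ⟨h1, h2, h4, h3⟩

namespace Roots
variable (R : Roots S)

/-- normalized block at a point with `X ≠ 0` -/
structure DXB (B : Block E4) (z n e : E4 → V3) (q : E4) : Prop where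
  hq : q ∈ B.W
  of : BlockOf S B z n e
  A : B.A
  sub : B.W ⊆ R.N
  far : ∀ x ∈ B.W, B.l x = R.far x
  h : ∀ x ∈ B.W, B.h x = R.h x
  Xg : ∀ x ∈ B.W, R.Xg x = B.u x • B.Np x + B.v x • B.Nm x
  S2 : ∀ x ∈ B.W, (x ∈ R.S2 ↔ B.a x * B.b x = 0)
  bq : B.b q = 0
  aq : B.a q ≠ 0
  uq : B.u q ≠ 0

theorem DXb_block (hNC : S.NC) {q : E4} (hq : q ∈ R.S2) (hX : R.X q ≠ 0) :
    ∃ (B : Block E4) (z n e : E4 → V3), R.DXB B z n e q := by
  obtain ⟨B, z, n, e, hqB, hof, hA, -, hsub, hall⟩ := R.block_at hNC hq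
  have hab := (hall q hqB).2.2.2.2.2.1.1 hq
  have hXq := (hall q hqB).2.2.2.1
  by_cases hb : B.b q = 0
  · have hv := hA.2 q hqB hb
    have hu : B.u q ≠ 0 := by
      intro hu
      apply hX
      rw [hXq, hu, hv, zero_smul, zero_smul, add_zero]
    have ha : B.a q ≠ 0 := fun ha => hu (hA.1 q hqB ha)
    exact ⟨B, z, n, e, hqB, hof, hA, hsub, fun x hx => (hall x hx).1, fun x hx => (hall x hx).2.2.1,
      fun x hx => (hall x hx).2.2.2.2.1, fun x hx => (hall x hx).2.2.2.2.2.1, hb, ha, hu⟩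
  · have ha : B.a q = 0 := (mul_eq_zero.1 hab).resolve_right hb
    have hu := hA.1 q hqB ha
    have hv : B.v q ≠ 0 := by
      intro hv
      apply hX
      rw [hXq, hu, hv, zero_smul, zero_smul, add_zero]
    refine ⟨B.swap, n, z, e, hqB, DXb_swap hof, ⟨hA.2, hA.1⟩, hsub, fun x hx => (hall x hx).1,
      fun x hx => (hall x hx).2.2.1, fun x hx => ?_, fun x hx => ?_, ha, hb, hv⟩
    · show R.Xg x = B.v x • B.Nm x + B.u x • B.Np x
      rw [(hall x hx).2.2.2.2.1, add_comm]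
    · show _ ↔ B.b x * B.a x = 0
      rw [mul_comm]
      exact (hall x hx).2.2.2.2.2.1

variable {R}

/-- `theta` vanishes on the block and not on `e` -/
theorem DXb_T {B : Block E4} {z n e : E4 → V3} {q : E4} (D : R.DXB B z n e q) {W : Set E4}
    {T : E4 → V3} (hT : IsRoot S W R.far 1 T) {x : E4} (hx : x ∈ B.W) (hxW : x ∈ W) :
    S.g x (T x) (z x) = 0 ∧ S.g x (T x) (n x) = 0 ∧ S.g x (T x) (e x) ≠ 0 := by
  have hx0 : x ≠ 0 := DXa_ne hT hxW
  have hL := (T3_eig S hT hxW 0).1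
  have h1 := S.g_L hx0 (T x) (z x)
  have h2 := S.g_L hx0 (T x) (n x)
  rw [hL, TB_smul_l, D.of.Lz x hx, TB_add_r, TB_smul_r, TB_smul_r] at h1
  rw [hL, TB_smul_l, D.of.Ln x hx, TB_add_r, TB_smul_r, TB_smul_r] at h2
  rw [← D.far x hx] at h1 h2
  have hP := B.P_pos x hx
  have hz : S.g x (T x) (z x) = 0 := by
    have : ((B.l x - B.s x) ^ 2 - B.a x * B.b x) * S.g x (T x) (z x) = 0 := by
      linear_combination (B.l x - B.s x) * h1 + B.b x * h2
    exact (mul_eq_zero.1 this).resolve_left hP.ne'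
  have hn : S.g x (T x) (n x) = 0 := by
    have : ((B.l x - B.s x) ^ 2 - B.a x * B.b x) * S.g x (T x) (n x) = 0 := by
      linear_combination (B.l x - B.s x) * h2 + B.a x * h1
    exact (mul_eq_zero.1 this).resolve_left hP.ne'
  refine ⟨hz, hn, fun he => ?_⟩
  have h3 := TB_expand S hx0 (D.of.frame x hx) (T x)
  have h4 : T x = 0 := by
    rw [h3, hz, hn, he, zero_smul, zero_smul, zero_smul, add_zero, add_zero]
  apply DXa_g hT hxW
  rw [h4, TB_zero_l]

theorem DXb_theta_Np {B : Block E4} {z n e : E4 → V3} {q : E4} (D : R.DXB B z n e q) {W : Set E4}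
    {T : E4 → V3} (hT : IsRoot S W R.far 1 T) {x : E4} (hx : x ∈ B.W) (hxW : x ∈ W) :
    theta S T x (B.Np x) = 0 := by
  rw [D.of.Np x hx, DXa_theta hT hxW, Pool.Agent.helper68.B2.T.comps_fld (DXa_ne hT hxW),
    (DXb_T D hT hx hxW).1, mul_zero]

/-- near `q` the points of `S2` are given by `b = 0` -/
theorem DXb_S2 {B : Block E4} {z n e : E4 → V3} {q : E4} (D : R.DXB B z n e q) {x : E4}
    (hx : x ∈ B.W) (ha : B.a x ≠ 0) : (x ∈ R.S2 ↔ B.b x = 0) := by
  rw [D.S2 x hx]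
  constructor
  · intro h
    exact (mul_eq_zero.1 h).resolve_left ha
  · intro h
    rw [h, mul_zero]

/-- injectivity of the derivative of the chart -/
theorem DXb_inj {B : Block E4} {z n e : E4 → V3} {q : E4} (D : R.DXB B z n e q) {W : Set E4}
    {T : E4 → V3} (hT : IsRoot S W R.far 1 T) (hqW : q ∈ W) (hh : R.h q ≠ 0) {w : E4}
    (h1 : theta S T q w = 0) (h2 : fderiv ℝ B.v q w = 0) (h3 : inner ℝ (B.Np q) w = (0 : ℝ))
    (h4 : inner ℝ q w = (0 : ℝ)) : w = 0 := by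
  have hq := D.hq
  have hq0 : q ≠ 0 := DXa_ne hT hqW
  have hv := D.A.2 q hq D.bq
  rw [Pool.Agent.helper25.B2.Block.BC_dv B hq D.bq hv, D.h q hq] at h2
  have hcm := (mul_eq_zero.1 h2).resolve_left hh
  rw [D.of.cm q hq] at hcm
  obtain ⟨tz, tn, te⟩ := DXb_T D hT hq hqW
  set cw := comps q w with hcw
  have hexp := TB_expand S hq0 (D.of.frame q hq) cw
  have hzcw : S.g q cw (z q) = 0 := by rw [TB_sym S hq0]; exact hcm
  rw [DXa_theta hT hqW, ← hcw] at h1
  have hTcw := (mul_eq_zero.1 h1).resolve_left (inv_ne_zero (DXa_g hT hqW))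
  rw [hexp, TB_add_r, TB_add_r, TB_smul_r, TB_smul_r, TB_smul_r, tz, tn, mul_zero, mul_zero,
    zero_add, zero_add] at hTcw
  have hecw := (mul_eq_zero.1 hTcw).resolve_right te
  rw [hzcw, hecw, zero_smul, zero_smul, add_zero, add_zero] at hexp
  have hw := Pool.Agent.helper68.B2.T.fld_comps hq0 w
  rw [← hcw, h4, zero_div, zero_smul, add_zero, hexp, Pool.Agent.helper68.B2.T.T1a_fld_smul,
    ← D.of.Np q hq] at hw
  rw [hw, inner_smul_right] at h3
  have hNp : B.Np q ≠ 0 := by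
    intro h0
    have := B.cp_Np q hq
    rw [h0, map_zero] at this
    exact zero_ne_one this
  have h5 : (inner ℝ (B.Np q) (B.Np q) : ℝ) ≠ 0 := by
    rw [real_inner_self_eq_norm_sq]
    exact pow_ne_zero 2 (norm_ne_zero_iff.2 hNp)
  have h6 := (mul_eq_zero.1 h3).resolve_right h5
  rw [hw, h6, zero_smul]

end Roots

end Pool.Agent.helper68.B2
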